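import Pool.Agent.Helper2.EC_C.Basic

set_option autoImplicit false

open MeasureTheory Filter Topology Set

namespace ECC.PkMON

open EC237

/-- the coefficient function -/
noncomputable def g (_M ν : ℕ) : ℝ := (ν:ℝ) - (if 3 ∣ ν then (ν:ℝ) else 0)

lemma g_nonneg (M ν : ℕ) : 0 ≤ g M ν := by
  unfold g
  split_ifs <;> simp

lemma PG_g : PG g := PG.N.sub (PG.N.ite (fun _ ν => 3 ∣ ν))

lemma sq_eq (k1 : G_K1) {q : ℝ} (hq : |q| < 1) : aS q ^ 2 = 1 + 12 * LS g q := by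
  have h1 := LS_sieveN (fun _ ν => (ν:ℝ)) (d := 3) (by norm_num) q
  have h2 : LS (fun _ ν => ((3 * ν : ℕ) : ℝ)) (q ^ 3) = 3 * GS (q ^ 3) := by
    unfold GS
    rw [← LS_mul_left]
    exact LS_congr (fun M ν _ _ => by push_cast; ring) _
  have h3 : LS g q = GS q - LS (fun _ ν => if 3 ∣ ν then (ν:ℝ) else 0) q :=
    LS_sub PG.N (PG.N.ite (fun _ ν => 3 ∣ ν)) hq
  rw [k1 q hq, h3, h1, h2]
  ring

lemma LS_mono {a b : ℝ} (ha : 0 ≤ a) (hab : a < b) (hb : b < 1) : LS g a < LS g b := by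
  unfold LS
  have ha1 : |a| < 1 := by rw [abs_of_nonneg ha]; linarith
  have hb1 : |b| < 1 := by rw [abs_of_nonneg (by linarith)]; linarith
  refine Summable.tsum_lt_tsum (i := ((0, 0) : ℕ × ℕ)) (fun p => ?_) ?_
    (LS_summable PG_g ha1) (LS_summable PG_g hb1)
  · exact mul_le_mul_of_nonneg_left (pow_le_pow_left₀ ha hab.le _) (g_nonneg _ _)
  · have : g (0 + 1) (0 + 1) = 1 := by unfold g; norm_num
    simp only [this]
    simpa using hab

theorem mon (k1 : G_K1) : G_MON := by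
  have hL : ∀ q ∈ Ico (0:ℝ) 1, 0 ≤ LS g q := by
    rintro q ⟨h0, h1⟩
    rcases eq_or_lt_of_le h0 with h | h
    · rw [← h, LS_zero]
    · have := LS_mono le_rfl h h1
      rw [LS_zero] at this
      exact this.le
  have habs : ∀ q ∈ Ico (0:ℝ) 1, |q| < 1 := by
    rintro q ⟨h0, h1⟩
    rwa [abs_of_nonneg h0]
  have hsq : ∀ q ∈ Ico (0:ℝ) 1, 1 ≤ aS q ^ 2 := by
    intro q hq
    rw [sq_eq k1 (habs q hq)]
    linarith [hL q hq]
  have hpos : ∀ q ∈ Ico (0:ℝ) 1, 0 < aS q := by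
    intro q hq
    by_contra hneg
    have hneg := not_lt.mp hneg
    have hsub : ∀ x ∈ Icc 0 q, x ∈ Ico (0:ℝ) 1 := fun x hx => ⟨hx.1, hx.2.trans_lt hq.2⟩
    have hc : ContinuousOn aS (Icc 0 q) := fun x hx =>
      (aS_continuousAt (habs x (hsub x hx))).continuousWithinAt
    have hmem : (0:ℝ) ∈ Icc (aS q) (aS 0) := by
      rw [aS_zero]
      exact ⟨hneg, zero_le_one⟩
    obtain ⟨c, hc1, hc2⟩ := intermediate_value_Icc' hq.1 hc hmem
    have := hsq c (hsub c hc1)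
    rw [hc2] at this
    norm_num at this
  refine ⟨?_, ?_⟩
  · intro a ha b hb hab
    have h1 := sq_eq k1 (habs a ha)
    have h2 := sq_eq k1 (habs b hb)
    have h3 := LS_mono ha.1 hab hb.2
    have h4 : aS a ^ 2 < aS b ^ 2 := by rw [h1, h2]; linarith
    exact lt_of_pow_lt_pow_left₀ 2 (hpos b hb).le h4
  · intro q hq
    by_contra h
    have h := not_le.mp h
    have h1 := hsq q hq
    have h2 := hpos q hq
    nlinarith

end ECC.PkMON
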